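import Pool.Agent.Lib.MP_7ec162_pr.LW.Fin2

/-!
# MP_7ec162_pr: comparisons of far apart speeds

`V(M) < V(N)` for all `N, M` with `2 ≤ N ≤ 650` and `M ≥ 4 N`, and for all `N, M` with `2 ≤ N ≤ 1000` and
`M ≥ 8 N`.

The definitions are in `Pool/Agent/Lib/MP_7ec162_pr/Basic.lean`:
`upd c i j` is the state after the pair `{i, j}` is drawn in the state `c`; `step f c` is the average
of `f (upd c i j)` over the `N (N - 1)` ordered pairs of distinct indices, that is, the conditional
expectation of `f` of the next state; `expTot t c` is the expected total after `t` steps, started from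
`c`; `IsSpeed N v` says that `expTot t c / t` tends to `v` for every initial state `c`.

Proof. For `N ≥ 20` two exact certificates, found by linear programming, give
`V(N) ≥ 1.2413219 + 0.252429 / (N - 1) - 0.95742 / (N (N - 1)) - ...` (`lower_five`, a potential of three
consecutive levels) and `V(M) ≤ 1.2415 + 0.5290705 / (M - 1) + 2.5287283 / (M (M - 1)) + ...`
(`upper_joint`, a potential of two consecutive levels); for `9 ≤ N ≤ 19` integer tables, checked by the
kernel, bound `V(N)` from below, and for `N ≤ 8` see `chain`.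
-/

set_option autoImplicit false

namespace Pool.Agent.Results.MP_7ec162_pr.FarMonotone

open Pool.Agent.Lib.MP7ec162

theorem result : ∃ V : ℕ → ℝ, (∀ N : ℕ, 2 ≤ N → IsSpeed N (V N)) ∧
    ∀ N M : ℕ, 2 ≤ N → (N ≤ 650 ∧ 4 * N ≤ M ∨ N ≤ 1000 ∧ 8 * N ≤ M) → V M < V N := by
  have h : ∀ N : ℕ, ∃ v : ℝ, 2 ≤ N → IsSpeed N v := by
    intro N
    by_cases hN : 2 ≤ N
    · obtain ⟨v, hv⟩ := exists_speed hN
      exact ⟨v, fun _ => hv⟩
    · exact ⟨0, fun h2 => absurd h2 hN⟩
  choose V hV using h
  exact ⟨V, hV, fun N M hN h => cmp_all hN h (hV N hN) (hV M (by omega))⟩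

end Pool.Agent.Results.MP_7ec162_pr.FarMonotone
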