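import Pool.Agent.Lib.MP_7ec162_pr.Final

/-!
# MP_7ec162_pr: the first seven speeds are larger than all later ones

For `2 ≤ N ≤ 8` and every `M > N` the speeds satisfy `V(M) < V(N)`. In particular
`V(2) > V(3) > ... > V(8) > V(9)`, and `V(8) > V(M)` for all `M ≥ 9`.

The definitions are in `Pool/Agent/Lib/MP_7ec162_pr/Basic.lean`:
`upd c i j` is the state after the pair `{i, j}` is drawn in the state `c`; `step f c` is the average
of `f (upd c i j)` over the `N (N - 1)` ordered pairs of distinct indices, that is, the conditional
expectation of `f` of the next state; `expTot t c` is the expected total after `t` steps, started from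
`c`; `IsSpeed N v` says that `expTot t c / t` tends to `v` for every initial state `c`.

Proof. Let `G k` be the number of the counters with value at least `k`. For a function `Φ` of two (or
three) consecutive values of `G` let `h = ∑ₖ Φ(G k, G (k+1))`. The drift of `total + h` is a sum over
the levels of a local cost (`drift`), and a potential `W` of the consecutive values with
`W(q, p) + cost(p, q, r) ≤ W(r, q)` bounds this sum by `W(N, N)` (`cert_upper`, `cert_lower`). The
quadratic spread grows at most linearly (`Q_step`), so `h` does not contribute in the limit. This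
gives `V(M) ≤ 1 + (M² - 1 + 4a(a-1))/((M-1)(3M+8a-11))` for all `M` and all integers `a ≥ 1`, and
tables of integers `Φ`, `W`, checked by the kernel, bound `V(2), ..., V(8)` from below and
`V(5), ..., V(14)` from above.
-/

set_option autoImplicit false

namespace Pool.Agent.Results.MP_7ec162_pr.InitialMonotone

open Pool.Agent.Lib.MP7ec162

theorem result : ∃ V : ℕ → ℝ, (∀ N : ℕ, 2 ≤ N → IsSpeed N (V N)) ∧
    ∀ N M : ℕ, 2 ≤ N → N ≤ 8 → N < M → V M < V N := by
  have h : ∀ N : ℕ, ∃ v : ℝ, 2 ≤ N → IsSpeed N v := by
    intro N
    by_cases hN : 2 ≤ N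
    · obtain ⟨v, hv⟩ := exists_speed hN
      exact ⟨v, fun _ => hv⟩
    · exact ⟨0, fun h => absurd h hN⟩
  choose V hV using h
  exact ⟨V, hV, fun N M hN hN8 hNM => chain hN hN8 hNM (hV N hN) (hV M (by omega))⟩

end Pool.Agent.Results.MP_7ec162_pr.InitialMonotone
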