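import Pool.Agent.Lib.MP_7ec162_pr.LW.Fin2

/-!
# MP_7ec162_pr: two-sided bounds for the speed, for every number of counters

For every `N ≥ 2` the speed `V(N)` exists and `1.2413 + 0.18 / N < V(N) < 1.2415 + 0.8 / (N - 1)`, so
all limit points of `V(N)` as `N → ∞` lie in `[1.2413, 1.2415]`. The earlier bounds
`(12 N - 8) / (10 N - 7) ≤ V(N)` (weaker) and
`V(N) ≤ 1 + (N² - 1 + 4 a (a - 1)) / ((N - 1) (3 N + 8 a - 11))` (`a ≥ 1` an integer; better for
`N ≤ 24`) are included.

The definitions are in `Pool/Agent/Lib/MP_7ec162_pr/Basic.lean`:
`upd c i j` is the state after the pair `{i, j}` is drawn in the state `c`; `step f c` is the average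
of `f (upd c i j)` over the `N (N - 1)` ordered pairs of distinct indices, that is, the conditional
expectation of `f` of the next state; `expTot t c` is the expected total after `t` steps, started from
`c`; `IsSpeed N v` says that `expTot t c / t` tends to `v` for every initial state `c`.

Proof. Let `G k` be the number of the counters at or above the level `k`. For the total plus
`∑ k, Φ (G k) (G (k + 1))` (upper bound) or `∑ k, Φ (G k) (G (k + 1)) (G (k + 2))` (lower bound) the
expected one-step change is a sum over the levels of a local function; up to a telescoping term each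
summand is bounded from one side (`cert_upper`, `certB_lower`). The functions are polynomials in the
levels and `N`, and the inequality is an explicit combination of squares, of products of nonnegative
variables, and of `n (n - 1) ≥ 0`, `n (n - 2) ≥ 0` (`n ≠ 1`) for natural numbers; it was found by linear
programming.
-/

set_option autoImplicit false

namespace Pool.Agent.Results.MP_7ec162_pr.SpeedValue

open Pool.Agent.Lib.MP7ec162

theorem result : ∀ N : ℕ, 2 ≤ N → ∃ v : ℝ, IsSpeed N v ∧
    1.2413 + 0.18 / (N : ℝ) < v ∧ v < 1.2415 + 0.8 / ((N : ℝ) - 1) ∧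
    (12 * (N : ℝ) - 8) / (10 * N - 7) ≤ v ∧
    (∀ a : ℤ, 1 ≤ a →
      v ≤ 1 + ((N : ℝ) ^ 2 - 1 + 4 * a * (a - 1)) / (((N : ℝ) - 1) * (3 * N + 8 * a - 11))) := by
  intro N hN
  obtain ⟨v, hv⟩ := exists_speed hN
  exact ⟨v, hv, fin_lower hN hv, fin_upper hN hv, lower_general hN hv,
    fun a ha => upper_general hN hv a ha⟩

end Pool.Agent.Results.MP_7ec162_pr.SpeedValue
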